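import Pool.Agent.Y481.DX.Defs
import Pool.Agent.Y929.CJ.Small

/-! DX-UQZF: small critical configurations with the functions of the children are unique -/

set_option autoImplicit false

namespace Pool.Agent.Y210.DX

open Finset Filter Topology Metric
open Pool.Agent.W711.HT
open Pool.Agent.Y472
open Pool.Agent.Y929.CJ
open Pool.Agent.Y481.DX
open scoped Real

/-- Lipschitz bound of a derivative -/
lemma lipF {ρ C : ℝ} (hρ : 0 < ρ) {f : ℂ → ℂ} (hf : DifferentiableOn ℂ f (Rc ρ ρ))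
    (hb : ∀ ψ ∈ Rc ρ ρ, ‖f ψ‖ ≤ C) {v v' : ℂ} (hv : v ∈ Rc (ρ / 2) (ρ / 2))
    (hv' : v' ∈ Rc (ρ / 2) (ρ / 2)) : ‖deriv f v - deriv f v'‖ ≤ 16 * C / ρ ^ 2 * ‖v - v'‖ := by
  have hsub : ∀ s, s ≤ ρ → ∀ z ∈ Rc s s, z ∈ Rc ρ ρ := fun s hs z hz =>
    ⟨hz.1.trans_le hs, hz.2.trans_le hs⟩
  have h1 : DifferentiableOn ℂ (deriv f) (Rc (3 * ρ / 4) (3 * ρ / 4)) :=
    (hf.deriv (Rc_open ρ ρ)).mono fun z hz => hsub _ (by linarith) z hz
  have h2 : ∀ z ∈ Rc (3 * ρ / 4) (3 * ρ / 4), ‖deriv f z‖ ≤ C / (ρ - 3 * ρ / 4) :=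
    fun z hz => cau (by linarith) hf hb hz
  have h3 := lip (s := ρ / 2) (by linarith) h1 h2 hv hv'
  refine h3.trans (le_of_eq ?_)
  field_simp
  ring

theorem uqzf : S_UQZF := by
  intro ρ C hρ
  refine ⟨2 * π * (80 * |C| / ρ ^ 2) + 1, by positivity, ?_⟩
  intro n σ F a z z' hn hσ hb hF ha hcr
  have hpi := Real.pi_pos
  have hn0 : 0 < n := by omega
  obtain ⟨j0, hj0, hmax⟩ := Finset.exists_max_image (range n) (fun j => ‖z j - z' j‖)
    ⟨0, Finset.mem_range.2 hn0⟩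
  rw [Finset.mem_range] at hj0
  set d := ‖z j0 - z' j0‖ with hd
  have hle : ∀ j < n, ‖z j - z' j‖ ≤ d := fun j hj => hmax j (Finset.mem_range.2 hj)
  -- the index before `j0`
  obtain ⟨i, hi, hij⟩ : ∃ i < n, (i + 1) % n = j0 := by
    rcases Nat.eq_zero_or_pos j0 with h | h
    · refine ⟨n - 1, by omega, ?_⟩
      rw [Nat.sub_add_cancel hn0, Nat.mod_self, h]
    · refine ⟨j0 - 1, by omega, ?_⟩
      rw [Nat.sub_add_cancel h, Nat.mod_eq_of_lt hj0]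
  obtain ⟨k, hk, hk2⟩ : ∃ k < n, (j0 + 1) % n = k := ⟨_, Nat.mod_lt _ hn0, rfl⟩
  obtain ⟨-, -, e1, e2⟩ := hcr i hi
  rw [hij, hk2] at e1 e2
  obtain ⟨i1, i2, -, -⟩ := hcr i hi
  obtain ⟨j1, j2, -, -⟩ := hcr j0 hj0
  obtain ⟨k1, k2, -, -⟩ := hcr k hk
  have l1 := lip2 hρ hσ hb i1 j1 i2 j2
  have l2 := lip2' hρ hσ hb j1 k1 j2 k2
  have l3 := lipF hρ (hF j0 hj0).1 (hF j0 hj0).2 j1 j2
  have hzero : (0 : ℂ) ∈ Rc ρ ρ := ⟨by simpa using hρ, by simpa using hρ⟩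
  have hC : 0 ≤ C := (norm_nonneg _).trans (hb 0 hzero 0 hzero)
  have hK : 0 ≤ 16 * C / ρ ^ 2 := by positivity
  have m1 : ‖deriv (fun w => σ (z i) w) (z j0) - deriv (fun w => σ (z' i) w) (z' j0)‖ ≤
      16 * C / ρ ^ 2 * (2 * d) := by
    refine l1.trans (mul_le_mul_of_nonneg_left ?_ hK)
    linarith [hle i hi, hle j0 hj0]
  have m2 : ‖deriv (fun w => σ w (z k)) (z j0) - deriv (fun w => σ w (z' k)) (z' j0)‖ ≤
      16 * C / ρ ^ 2 * (2 * d) := by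
    refine l2.trans (mul_le_mul_of_nonneg_left ?_ hK)
    linarith [hle k hk, hle j0 hj0]
  have e3 : Complex.I * a j0 * (z j0 - z' j0) / (2 * π) =
      -((deriv (F j0) (z j0) - deriv (F j0) (z' j0)) +
        (deriv (fun w => σ (z i) w) (z j0) - deriv (fun w => σ (z' i) w) (z' j0)) +
        (deriv (fun w => σ w (z k)) (z j0) - deriv (fun w => σ w (z' k)) (z' j0))) := by
    linear_combination e1 - e2
  have e4 : ‖Complex.I * a j0 * (z j0 - z' j0) / (2 * π)‖ = |(a j0 : ℝ)| * d / (2 * π) := by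
    rw [norm_div, norm_mul, norm_mul, Complex.norm_I, one_mul, Complex.norm_intCast, ← hd]
    congr 1
    rw [show (2 * (π : ℂ)) = ((2 * π : ℝ) : ℂ) by push_cast; ring, Complex.norm_real,
      Real.norm_eq_abs, abs_of_pos (by positivity)]
  have e5 : |(a j0 : ℝ)| * d / (2 * π) ≤ 80 * |C| / ρ ^ 2 * d := by
    rw [← e4, e3, norm_neg]
    refine (norm_add_le _ _).trans ?_
    refine (add_le_add_left (norm_add_le _ _) _).trans ?_
    rw [abs_of_nonneg hC]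
    calc _ ≤ 16 * C / ρ ^ 2 * d + 16 * C / ρ ^ 2 * (2 * d) + 16 * C / ρ ^ 2 * (2 * d) :=
          add_le_add (add_le_add l3 m1) m2
      _ = _ := by ring
  have hd0 : 0 ≤ d := norm_nonneg _
  have e6 : d = 0 := by
    by_contra hne
    have hdpos : 0 < d := lt_of_le_of_ne hd0 (Ne.symm hne)
    have h1 := ha j0 hj0
    rw [div_le_iff₀ (by positivity)] at e5
    have h2 : |(a j0 : ℝ)| ≤ 80 * |C| / ρ ^ 2 * (2 * π) := by
      refine le_of_mul_le_mul_right ?_ hdpos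
      calc |(a j0 : ℝ)| * d ≤ 80 * |C| / ρ ^ 2 * d * (2 * π) := e5
        _ = _ := by ring
    linarith
  intro j hj
  have h1 := hle j hj
  rw [e6] at h1
  exact sub_eq_zero.1 (norm_le_zero_iff.1 h1)

end Pool.Agent.Y210.DX
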